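import Pool.Agent.Helper72.MK.DefsT

/-!
# Makai's conjecture in dimension 3: the packets which do not use convex bodies

The whole proof is in `paper.md` in this folder.  Every packet below contains its complete proof.
-/

open MeasureTheory Set Filter Topology
open scoped ENNReal Quaternion

noncomputable section

namespace Pool.Agent.Helper72.MK

/-- LOG1. Logarithms on compact contractible spaces.
PROOF. Let `H : [0,1] × X → X` be a homotopy from a constant map `x ↦ x₀` (time 0) to the identity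
(time 1) (`ContractibleSpace`, `id_nullhomotopic`, reverse the homotopy if needed). `F(t,x) = f(H(t,x))`
is continuous on the compact space `[0,1] × X` and nowhere 0, so `|F| ≥ m > 0` and `F` is uniformly
continuous: there is `N ≥ 1` with `|F(t,x) - F(t',x)| < m` for `|t-t'| ≤ 1/N` and all `x`. So the
ratio `r_j(x) = F((j+1)/N,x)/F(j/N,x)` satisfies `|r_j(x) - 1| < 1`, hence lies in the slit plane, and
`θ(x) = log f(x₀) + ∑_{j<N} log r_j(x)` is continuous with `exp θ(x) = f(x₀) ∏ r_j(x) = f(x)`. -/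
def LOG1Stmt : Prop := ∀ (X : Type) [MetricSpace X] [CompactSpace X] [ContractibleSpace X]
  (f : X → ℂ), Continuous f → (∀ x, f x ≠ 0) →
    ∃ θ : X → ℂ, Continuous θ ∧ ∀ x, Complex.exp (θ x) = f x

/-- HEM. The closed hemisphere is compact and contractible.
PROOF. Compact: closed subset of the unit sphere of a finite dimensional space. Contractible: the
homotopy `c(t,x) = (t x + (1-t) N)/‖t x + (1-t) N‖`; the vector `t x + (1-t) N` is not 0 because its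
inner product with `N` is `t ⟪N,x⟫ + (1-t) > 0` for `t < 1`, and it is `x` for `t = 1`; `c(t,x)` is in
the hemisphere, `c(0,x) = N`, `c(1,x) = x`. -/
def HEMStmt : Prop := ∀ (E : Type) [NormedAddCommGroup E] [InnerProductSpace ℝ E]
  [FiniteDimensional ℝ E] (N : E), ‖N‖ = 1 → CompactSpace (Hem N) ∧ ContractibleSpace (Hem N)

/-- EIG. Algebra of the Pauli matrices.
PROOF. `PM v (PM v s) = (nm v)² s` is a computation (`nm v ^ 2 = v0²+v1²+v2²`, `I² = -1`), `PM` is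
linear in `v` and in `s`. (1) two eigenvectors for the same eigenvalue `|v| > 0` are proportional: if
not, `s, t` span `ℂ²` and `PM v = |v|` identically, so `v2 = |v|` and `-v2 = |v|`, so `|v| = 0`.
(In coordinates: `(v2 - |v|) s1 + (v0 - i v1) s2 = 0` and `(v0 + i v1) s1 - (v2 + |v|) s2 = 0`, the
same for `t`; if `dt s t ≠ 0`, multiply and subtract: `(v2-|v|) dt = 0`, `(v2+|v|) dt = 0`.) From
`dt s t = 0` and `s ≠ 0` one gets `t = f s` with `f = fr s t` (check both coordinates with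
`|s1|²+|s2|² ≠ 0`, `s1 t2 = s2 t1`), and `f ≠ 0` as `t ≠ 0`. (2) if `PM v s = |v| s` and
`PM (-v) t = |v| t`, i.e. `PM v t = -|v| t`, and `dt s t = 0`, then `t = f s`, so `|v| t = -|v| t`, `t = 0`,
contradiction. (3) put `u = PM w s + |w| s`. Then `PM w u = |w|² s + |w| PM w s = |w| u`. If `u = 0`
then `PM w s = -|w| s`, so `PM (v - w) s = (|v| + |w|) s`, apply `PM (v-w)` again:
`|v-w|² s = (|v|+|w|)² s`, so `|v-w| = |v|+|w|`, contradiction to the assumption. (4) of the two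
vectors `(v0 - i v1, |v| - v2)` and `(|v| + v2, v0 + i v1)` at least one is nonzero (if both are zero then
`|v| = v2 = -v2`) and both satisfy `PM v s = |v| s`. -/
def EIGStmt : Prop :=
  (∀ (v : Fin 3 → ℝ) (s : ℂ × ℂ), PM v (PM v s) = ((nm v : ℂ) ^ 2) • s) ∧
  (∀ (v : Fin 3 → ℝ) (s t : ℂ × ℂ), v ≠ 0 → Eig v s → Eig v t → fr s t ≠ 0 ∧ t = fr s t • s) ∧
  (∀ (v : Fin 3 → ℝ) (s t : ℂ × ℂ), v ≠ 0 → Eig v s → Eig (-v) t → dt s t ≠ 0) ∧
  (∀ (v w : Fin 3 → ℝ) (s : ℂ × ℂ), nm (v - w) < nm v + nm w → Eig v s →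
    Eig w (PM w s + (nm w : ℂ) • s)) ∧
  (∀ v : Fin 3 → ℝ, v ≠ 0 → ∃ s, Eig v s)

/-- SEC1. Sections over compact contractible spaces.
PROOF (uses EIG). As LOG1: `H : [0,1] × X → X`, `V(t,x) = v(H(t,x))`, continuous and nowhere 0 on the
compact space `[0,1] × X`, so `nm V ≥ m > 0` and there is `N` with `nm (V(t,x) - V(t',x)) < m` for
`|t-t'| ≤ 1/N`. Let `s_0` be a constant vector with `Eig (v x₀) s_0` (EIG(4)), and
`s_{j+1}(x) = PM w (s_j x) + |w| s_j x` with `w = V((j+1)/N, x)`. By EIG(3) and induction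
`Eig (V(j/N,x)) (s_j x)`, and `s_j` is continuous; `s_N` is the section. -/
def SEC1Stmt : Prop := ∀ (X : Type) [MetricSpace X] [CompactSpace X] [ContractibleSpace X]
  (v : X → Fin 3 → ℝ), Continuous v → (∀ x, v x ≠ 0) →
    ∃ s : X → ℂ × ℂ, Continuous s ∧ ∀ x, Eig (v x) (s x)

/-- LOG2. Logarithms on spheres of dimension at least 2.
PROOF (uses LOG1, HEM). Take a unit vector `N`. By LOG1 and HEM there are continuous logarithms `θ₊`
on `Hem N` and `θ₋` on `Hem (-N)`. The equator `{‖x‖ = 1, ⟪N,x⟫ = 0}` is the image of the unit sphere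
of the subspace `(ℝ N)ᗮ` of dimension at least 2, hence connected (`isConnected_sphere`); on it
`θ₊ - θ₋` is continuous with values in `2πi ℤ` (as `exp (θ₊ - θ₋) = 1`), so it is a constant `c` with
`exp c = 1`. Put `θ = θ₊` on `Hem N` and `θ = θ₋ + c` on `Hem (-N)`; the definitions agree on the
intersection, both sets are closed, they cover the sphere, so `θ` is continuous on the sphere. -/
def LOG2Stmt : Prop := ∀ (E : Type) [NormedAddCommGroup E] [InnerProductSpace ℝ E]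
  [FiniteDimensional ℝ E], 3 ≤ Module.finrank ℝ E →
  ∀ f : E → ℂ, ContinuousOn f (SS E) → (∀ x ∈ SS E, f x ≠ 0) →
    ∃ θ : E → ℂ, ContinuousOn θ (SS E) ∧ ∀ x ∈ SS E, Complex.exp (θ x) = f x

/-- SEC2. Sections over spheres of dimension at least 3.
PROOF (uses SEC1, HEM, LOG2, EIG). Take a unit vector `N`, sections `s₊` on `Hem N` and `s₋` on
`Hem (-N)` by SEC1, HEM. On the equator (the unit sphere of `W = (ℝ N)ᗮ`, `dim W ≥ 3`) put
`f = fr s₊ s₋`, so `s₋ = f s₊`, `f` is continuous and not 0 (EIG(2)). By LOG2 for `W`, `f = exp φ` with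
`φ` continuous on the unit sphere of `W`. For `x` in the unit sphere of `E` let `y = x - ⟪N,x⟫ N ∈ W`,
`ρ = ‖y‖` and `φ'(x) = ρ φ(y/ρ)` if `ρ ≠ 0`, `φ'(x) = 0` if `ρ = 0`: continuous, because `φ` is bounded
on the compact unit sphere of `W`, and `φ' = φ` on the equator. Put `s = s₊` on `Hem N` and
`s = exp(-φ') s₋` on `Hem (-N)`: they agree on the equator, both closed sets cover the sphere. -/
def SEC2Stmt : Prop := ∀ (E : Type) [NormedAddCommGroup E] [InnerProductSpace ℝ E]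
  [FiniteDimensional ℝ E], 4 ≤ Module.finrank ℝ E →
  ∀ v : E → Fin 3 → ℝ, ContinuousOn v (SS E) → (∀ x ∈ SS E, v x ≠ 0) →
    ∃ s : E → ℂ × ℂ, ContinuousOn s (SS E) ∧ ∀ x ∈ SS E, Eig (v x) (s x)

/-- AVG. The averaging argument.
PROOF (uses LOG2 for `E = ℍ`, of dimension 4). Right multiplications by `i, j, -j, k, -k, ω` map the
unit sphere to itself and are continuous. By LOG2 take logarithms `θ₁ … θ₅` of `f1, …, f5` and `φ` of
`d` on the sphere `S`. `S` is connected, so each of the following functions, which is continuous with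
values in `2πi ℤ` (for the fourth in `πi + 2πi ℤ`), is a constant:
(a) `θ₁(g) + θ₂(g i) - θ₄(g) = 2πi m₁`, (b) `θ₂(g) + θ₁(g j) - θ₅(g) = 2πi m₂`,
(c) `θ₁(g) + θ₃(g i) - θ₅(g) = 2πi m₃`, (d) `φ(g ω) - φ(g) - θ₄(g) = πi + 2πi m₄`,
(e) `φ(g i) - φ(g) - θ₁(g) - θ₃(g ω) = 2πi m₅`.
For a function `θ` on `S` let `A[θ] = ∑_{a=0}^{7} (θ(ω^a) + θ(ω^a i))`. As `ω^8 = 1`, `ω^4 = -1`,
`i ω = ω^7 i` (so `ω^a i ω = ω^{a+7} i`), `i i = -1 = ω^4`, the sum is invariant:
`A[θ(· ω)] = A[θ] = A[θ(· i)]`, hence also `A[θ(· k)] = A[θ]` (`k = ω²`) and `A[θ(· j)] = A[θ]`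
(`j = k i`). Summing (a)-(e): with `E_n = A[θ_n]`: `E₁+E₂-E₄ = 32πi m₁`, `E₂+E₁-E₅ = 32πi m₂`,
`E₁+E₃-E₅ = 32πi m₃`, `-E₄ = 16πi + 32πi m₄`, `-E₁-E₃ = 32πi m₅`. So
`E₅ = E₄ + 32πi(m₁-m₂)`, `0 = E₅ + 32πi(m₃+m₅) = -16πi + 32πi(-m₄+m₁-m₂+m₃+m₅)`, so `1` is an even
integer, contradiction. -/
def AVGStmt : Prop := ∀ f1 f2 f3 f4 f5 d : ℍ[ℝ] → ℂ,
  (ContinuousOn f1 (SS ℍ[ℝ]) ∧ ContinuousOn f2 (SS ℍ[ℝ]) ∧ ContinuousOn f3 (SS ℍ[ℝ]) ∧
    ContinuousOn f4 (SS ℍ[ℝ]) ∧ ContinuousOn f5 (SS ℍ[ℝ]) ∧ ContinuousOn d (SS ℍ[ℝ])) →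
  (∀ g ∈ SS ℍ[ℝ], f1 g ≠ 0 ∧ f2 g ≠ 0 ∧ f3 g ≠ 0 ∧ f4 g ≠ 0 ∧ f5 g ≠ 0 ∧ d g ≠ 0) →
  (∀ g ∈ SS ℍ[ℝ], f1 g * f2 (g * qi) = f4 g ∧ f2 g * f1 (g * qj) = f5 g ∧
    f1 g * f3 (g * qi) = f5 g ∧ d (g * om) = -(f4 g) * d g ∧
    d (g * qi) = f1 g * f3 (g * om) * d g) → False

/-- TT. The topological theorem: every `Δ : S³ → ℝ³` with `Δ(g ω) = -Δ(g)`, `Δ(g i) = Δ(g)` has a
zero.
PROOF (uses SEC2 for `E = ℍ`, EIG, AVG). Suppose `Δ ≠ 0` on `S`. As `ω² = k`, `Δ(g k) = Δ(g)`; as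
`(g k) i = g j`, `Δ(g j) = Δ(g)`; as `g i i = -g`, `Δ(-g) = Δ(g)`; so `Δ(g h) = Δ(g)` for
`h = i, j, -j, k, -k`. Let `s` be a section (`Eig (Δ g) (s g)`) by SEC2. Put
`f_h(g) = fr (s g) (s (g h))`: by EIG(2) `s(g h) = f_h(g) s(g)`, `f_h(g) ≠ 0`, and `f_h` is continuous
on `S` (the denominator of `fr` is not 0). Let `d(g) = dt (s g) (s (g ω))`, not 0 by EIG(3) as
`Δ(g ω) = -Δ(g)`. Apply AVG with `f1, f2, f3, f4, f5 = f_i, f_j, f_{-j}, f_k, f_{-k}`:
`s(g i j) = f_j(g i) s(g i) = f_j(g i) f_i(g) s(g)` and `s(g k) = f_k(g) s(g)`, `i j = k`;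
`j i = -k`; `i (-j) = -k`; `d(g ω) = dt (s(g ω)) (s(g k)) = f_k(g) dt (s(g ω)) (s g) = -f_k(g) d(g)`;
`i ω = ω (-j)`, so `d(g i) = dt (s(g i)) (s(g ω (-j))) = f_i(g) f_{-j}(g ω) d(g)`. -/
def TTStmt : Prop := ∀ D : ℍ[ℝ] → Fin 3 → ℝ, ContinuousOn D (SS ℍ[ℝ]) →
  (∀ g ∈ SS ℍ[ℝ], D (g * om) = -D g) → (∀ g ∈ SS ℍ[ℝ], D (g * qi) = D g) →
  ∃ g ∈ SS ℍ[ℝ], D g = 0

/-- TRI. The area of a triangle.
PROOF. If `D = u 0 * w 1 - u 1 * w 0 = 0` the set lies in a line through 0, a null set. Otherwise it is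
the image of `{(s,t) : 0 < s, 0 < t, s + t < 1}` under the linear map `(s,t) ↦ s u + t w` with
determinant `D` (`Measure.addHaar_image_linearMap`), and the area of the standard triangle is `1/2`
(for instance `regionBetween`, or Fubini). -/
def TRIStmt : Prop := ∀ u w : Fin 2 → ℝ,
  volume {x : Fin 2 → ℝ | ∃ s t : ℝ, 0 < s ∧ 0 < t ∧ s + t < 1 ∧ x = s • u + t • w} =
    ENNReal.ofReal (|u 0 * w 1 - u 1 * w 0| / 2)

/-- QUAD. Area of a convex set in a quadrant.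
PROOF (uses TRI). The open triangles `T₁` spanned by `0, (a,0), (r,s)` and `T₂` spanned by
`0, (r,s), (0,b)` have areas `a s / 2` and `b r / 2` (TRI), lie in `L` (convex combinations with the
point 0) and (if `a s > 0`, resp. `b r > 0`; otherwise the triangle can be dropped) in the open
quadrant; they are disjoint, because a point of `T₁` satisfies `x 0 * s - x 1 * r > 0` and a point of
`T₂` satisfies `x 0 * s - x 1 * r < 0`. Triangles are measurable (open, or null measurable). -/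
def QUADStmt : Prop := ∀ L : Set (Fin 2 → ℝ), Convex ℝ L → (0 : Fin 2 → ℝ) ∈ L →
  ∀ a b r s : ℝ, 0 ≤ a → 0 ≤ b → 0 ≤ r → 0 ≤ s → ![a, 0] ∈ L → ![0, b] ∈ L → ![r, s] ∈ L →
  ENNReal.ofReal ((a * s + b * r) / 2) ≤ volume (L ∩ {x | 0 < x 0 ∧ 0 < x 1})

/-- CHORD. Area of a convex set with a chord `u` and two further points.
PROOF (uses TRI). Let `l(v) = u 0 * (v - x) 1 - u 1 * (v - x) 0`; the claim is
`|l(y) - l(y')| / 2 ≤ area`. The open triangle `x + {s u + t (y - x)}` lies in `P`, has area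
`|l(y)|/2` and (if `l(y) ≠ 0`) lies in the set where `l` has the sign of `l(y)`; the same for `y'`. If
`l(y)` and `l(y')` have different signs the triangles are disjoint and
`|l(y)| + |l(y')| = |l(y) - l(y')|`; if they have the same sign (or one is 0) then
`|l(y) - l(y')| ≤ max (|l(y)|, |l(y')|)`, and one triangle suffices. -/
def CHORDStmt : Prop := ∀ P : Set (Fin 2 → ℝ), Convex ℝ P → ∀ x u y y' : Fin 2 → ℝ,
  x ∈ P → x + u ∈ P → y ∈ P → y' ∈ P →
  ENNReal.ofReal (|u 0 * (y 1 - y' 1) - u 1 * (y 0 - y' 0)| / 2) ≤ volume P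

/-- HEX. Area of a symmetric convex set with given points.
PROOF (uses QUAD). The six open sectors `±S₁` (`0 < x`, `0 < y`), `±S₂` (`x < 0`, `-x < y`, between the
directions `(0,1)` and `(-1,1)`), `±S₃` (`0 < y < -x`, between `(-1,1)` and `(-1,0)`) are disjoint and
measurable, and `L ∩ (-S_i)` has the same measure as `L ∩ S_i` as `L = -L`. QUAD for `L`:
area of `L ∩ S₁ ≥ (m(1-r) + m r)/2 = m/2`. `S₂` is the image of the open quadrant under
`(s,t) ↦ (-t, s+t)`, of determinant 1 in absolute value; the preimage of `L` contains `(m,0)` (as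
`(0,m) ∈ L`), `(0,m)` (as `(-m,m) ∈ L`) and `(1-q, q)` (as `(-q,1) ∈ L`), so the area of `L ∩ S₂` is
`≥ (m q + m (1-q))/2`. `S₃` is the image of the open quadrant under `(s,t) ↦ (-s-t, s)`; the preimage
of `L` contains `(m,0)` (as `(-m,m) ∈ L`), `(0,m)` (as `(-m,0) ∈ L`), `(p,1-p)` (as `(-1,p) ∈ L`), so the
area of `L ∩ S₃` is `≥ (m(1-p) + m p)/2 = m/2`. Total `≥ 6 m/2 = 3m`. Measurability: only the sectors
must be measurable (`L` convex is null measurable, or use `measure_inter_add_diff` with the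
measurable sectors). -/
def HEXStmt : Prop := ∀ L : Set (Fin 2 → ℝ), Convex ℝ L → (∀ x ∈ L, -x ∈ L) →
  ∀ p q r m : ℝ, 0 ≤ p → p ≤ 1 → 0 ≤ q → q ≤ 1 → 0 ≤ r → r ≤ 1 → 0 ≤ m →
  ![1, -p] ∈ L → ![-q, 1] ∈ L → ![r, 1 - r] ∈ L → ![m, 0] ∈ L → ![0, m] ∈ L → ![-m, m] ∈ L →
  ENNReal.ofReal (3 * m) ≤ volume L

/-- CONE. The volume of a cone.
PROOF. If `c i = 0` the left side is 0. Otherwise use Fubini with respect to the `i`-th coordinate
(`volume_preserving_piFinSuccAbove`): for `τ = t c_i`, `0 < t < 1`, the slice of the cone at height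
`x_i = τ` is the translate by `t c'` of `(1-t) H`, with area `(1-t)² vol H` (`Measure.addHaar_smul`), so
the volume is at least `∫_{0 < t < 1} (1-t)² |c_i| dt vol H = |c_i|/3 vol H`. (Or: the cone is the
image of `{(y,t) : 0 < t < 1, y ∈ (1-t) H}` under the linear map `(y,t) ↦ insertNth 0 y + t c`, with
determinant `± c_i`.) -/
def CONEStmt : Prop := ∀ (i : Fin 3) (H : Set (Fin 2 → ℝ)), MeasurableSet H → ∀ c : Fin 3 → ℝ,
  ENNReal.ofReal (|c i| / 3) * volume H ≤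
    volume {x : Fin 3 → ℝ | ∃ y ∈ H, ∃ t : ℝ, 0 < t ∧ t < 1 ∧
      x = (1 - t) • (i.insertNth (0 : ℝ) y : Fin 3 → ℝ) + t • c}

/-- HALF. Central symmetry halves the volume.
PROOF. `A` is the disjoint union of `A ∩ {x i > 0}`, `A ∩ {x i < 0}` and `A ∩ {x i = 0}`; the second
is the image of the first under `x ↦ -x` (measure preserving), the third is null (a hyperplane). -/
def HALFStmt : Prop := ∀ (n : ℕ) (A : Set (Fin n → ℝ)), MeasurableSet A → (∀ x ∈ A, -x ∈ A) →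
  ∀ i : Fin n, volume (A ∩ {x | 0 < x i}) * 2 = volume A

/-- SEG. Volume of the sum with a segment.
PROOF. Fubini with respect to the `i`-th coordinate (`volume_preserving_piFinSuccAbove`): for
`y ∈ pr i K` the fibre `{s : insertNth s y ∈ K}` is a nonempty compact interval `[l,r]`, and the
fibre of the sum is `[l, r + t]`, of length `(r - l) + t`; for `y ∉ pr i K` both fibres are empty.
So the volume of the sum is `vol K + t area (pr i K)`. (`pr i K` is compact, all sets are compact,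
hence measurable.) -/
def SEGStmt : Prop := ∀ (K : Set (Fin 3 → ℝ)) (i : Fin 3), Convex ℝ K → IsCompact K →
  ∀ t : ℝ, 0 ≤ t → volume K + ENNReal.ofReal t * volume (pr i K) ≤
    volume {x : Fin 3 → ℝ | ∃ y ∈ K, ∃ s ∈ Icc (0 : ℝ) t, x = y + Pi.single i s}

/-- FRM. The frames.
PROOF. Computations with `re² + imI² + imJ² + imK² = ‖g‖² = 1` and `(√2)⁻¹² = 1/2`. With
`g = (w,x,y,z)`: `g ω = (w-z, x+y, y-x, z+w)/√2`, `g i = (-x, w, z, -y)`. -/
def FRMStmt : Prop := (Continuous q1 ∧ Continuous q2 ∧ Continuous q3) ∧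
  ∀ g ∈ SS ℍ[ℝ], g * om ∈ SS ℍ[ℝ] ∧ g * qi ∈ SS ℍ[ℝ] ∧
    (ip (q1 g) (q1 g) = 1 ∧ ip (q2 g) (q2 g) = 1 ∧ ip (q3 g) (q3 g) = 1 ∧
      ip (q1 g) (q2 g) = 0 ∧ ip (q1 g) (q3 g) = 0 ∧ ip (q2 g) (q3 g) = 0) ∧
    (q1 (g * om) = q2 g ∧ q2 (g * om) = -q1 g ∧ q3 (g * om) = q3 g) ∧
    (q1 (g * qi) = q1 g ∧ q2 (g * qi) = -q2 g ∧ q3 (g * qi) = -q3 g)

/-- ARS. Scaling of `Ar`.
PROOF. `y 0 • (c • u) + y 1 • (d • v) = y' 0 • u + y' 1 • v` with `y' = (c y 0, d y 1)`; the linear map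
`y ↦ y'` has determinant `c d`, so the preimage has `1/|c d|` times the area
(`Measure.addHaar_preimage_linearMap`). -/
def ARSStmt : Prop := ∀ (L : Set (Fin 3 → ℝ)) (u v : Fin 3 → ℝ) (c d : ℝ), c ≠ 0 → d ≠ 0 →
  Ar L (c • u) (d • v) = |c|⁻¹ * |d|⁻¹ * Ar L u v

/-- DCV. Dominated convergence for volumes.
PROOF. The indicator functions of `A ∩ {0 < Φ t}` are dominated by the indicator of `A`, integrable,
and converge at every `x ∈ A` with `Φ₀ x ≠ 0` (if `Φ₀ x > 0` then `Φ t x > 0` eventually, the same for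
`< 0`), that is almost everywhere. `tendsto_integral_filter_of_dominated_convergence` (or the
`lintegral` version); the volume is the integral of the indicator. -/
def DCVStmt : Prop := ∀ (T : Type) (l : Filter T) [l.IsCountablyGenerated] (n : ℕ)
  (A : Set (Fin n → ℝ)) (Φ : T → (Fin n → ℝ) → ℝ) (Φ₀ : (Fin n → ℝ) → ℝ),
  MeasurableSet A → volume A ≠ ⊤ → (∀ t, Measurable (Φ t)) → Measurable Φ₀ →
  (∀ x ∈ A, Tendsto (fun t => Φ t x) l (𝓝 (Φ₀ x))) →
  volume (A ∩ {x | Φ₀ x = 0}) = 0 →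
  Tendsto (fun t => (volume (A ∩ {x | 0 < Φ t x})).toReal) l
    (𝓝 (volume (A ∩ {x | 0 < Φ₀ x})).toReal)

/-- IMP. A monotone implicit function lemma.
PROOF. Let `x₀ ∈ s`, `0 < e < τ x₀`. `G x₀ (τ x₀ - e) > c > G x₀ (τ x₀ + e)`, so by continuity of
`x ↦ G x t` for the two values of `t` we have `G x (τ x₀ - e) > c > G x (τ x₀ + e)` for `x ∈ s` near
`x₀`, and by monotonicity `τ x₀ - e < τ x < τ x₀ + e`. -/
def IMPStmt : Prop := ∀ (X : Type) [TopologicalSpace X] (s : Set X) (G : X → ℝ → ℝ) (c : ℝ)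
  (τ : X → ℝ), (∀ x ∈ s, 0 < τ x ∧ G x (τ x) = c) → (∀ x ∈ s, StrictAntiOn (G x) (Ioi 0)) →
  (∀ t : ℝ, 0 < t → ContinuousOn (fun x => G x t) s) → ContinuousOn τ s

end Pool.Agent.Helper72.MK
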