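import Pool.Agent.Helper72.MK.Defs
import Pool.Agent.Helper72.MK.GoalsT

/-!
# Makai's conjecture in dimension 3: the packets about convex bodies

The whole proof is in `paper.md` in this folder.  Every packet below contains its complete proof.
`IsBody`, `dpol`, `F`, `hs`, `wd` and lemmas are in `Pool/Agent/Helper47/AQ/Body.lean`, `F_linear`,
`IsBody.affine` in `Pool/Agent/Helper47/AQ/Affine.lean`.
-/

open MeasureTheory Set Filter Topology
open scoped ENNReal Quaternion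
open Pool.Agent.Helper47.AQ

noncomputable section

namespace Pool.Agent.Helper72.MK

/-- BIP. The bipolar theorem for `K - K`.
PROOF. `D = K - K` is compact and convex (image of `K × K`), contains 0. If `z ∉ D`, separate strictly
(`geometric_hahn_banach_compact_closed` or `..._point_closed`): a linear functional `⟨p,·⟩` and a real
`u` with `⟨p,w⟩ < u < ⟨p,z⟩` for `w ∈ D`; `0 ∈ D` gives `u > 0`; then `q = p/u` is in `dpol K` and
`⟨q,z⟩ > 1`, contradiction. (Every continuous linear functional on `ι → ℝ` is `x ↦ ∑ p i * x i`.) -/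
def BIPStmt : Prop := ∀ (ι : Type) [Fintype ι] (K : Set (ι → ℝ)), IsBody K → ∀ z : ι → ℝ,
  (∀ p ∈ dpol K, ∑ i, p i * z i ≤ 1) → ∃ x ∈ K, ∃ y ∈ K, z = x - y

/-- BODY. `(K-K)°` is a symmetric convex body.
PROOF. Convex and closed: intersection of half spaces; `h.dpol_eq : dpol K = {p | wd K p ≤ 1}`,
`h.wd_continuous`, `h.le_wd` (`ε ∑ |p i| ≤ wd K p`, so bounded), `wd K 0 = 0`, so the open set
`{wd K < 1}` is a neighbourhood of 0. Symmetric: exchange `x` and `y` in the definition of `dpol`. -/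
def BODYStmt : Prop := ∀ (ι : Type) [Fintype ι] (K : Set (ι → ℝ)), IsBody K →
  IsBody (dpol K) ∧ ∀ p ∈ dpol K, -p ∈ dpol K

/-- PLS. The planar inequality in standard position.
PROOF (uses HEX, CHORD, BODY). Let `L = dpol P`. `(1,0), (0,1), (1,1) ∈ P - P`, so every `p ∈ L`
satisfies `|p 0| ≤ 1`, `|p 1| ≤ 1`, `|p 0 + p 1| ≤ 1`. The point `p` with `p 0 = 1` has
`p 1 ∈ [-1,0]`, the point `q` with `q 1 = 1` has `q 0 ∈ [-1,0]`, the point `r` with `r 0 + r 1 = 1` has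
`r 0 ∈ [0,1]`. Let `w₁, w₂, w₃` be the maxima over `x, y ∈ P` (compact) of `x 0 - y 0`, `x 1 - y 1`,
`(x 0 - y 0) - (x 1 - y 1)`; all positive; `(1/w₁, 0)`, `(0, 1/w₂)`, `(1/w₃, -1/w₃) ∈ L`, so with
`m = min (1/w_i)` the points `(m,0), (0,m), (-m,m)` are in `L` (convex, symmetric, contains 0), and
`area L ≥ 3 m` by HEX. By CHORD with `u = (1,0)`: `area P ≥ w₂/2`; `u = (0,1)`: `area P ≥ w₁/2`;
`u = (1,1)`: `area P ≥ w₃/2`. So `area P ≥ 1/(2m)` and the product is at least `3/2`. -/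
def PLSStmt : Prop := ∀ P : Set (Fin 2 → ℝ), IsBody P →
  (∃ x ∈ P, x + ![1, 0] ∈ P) → (∃ x ∈ P, x + ![0, 1] ∈ P) → (∃ x ∈ P, x + ![1, 1] ∈ P) →
  (∃ p ∈ dpol P, p 0 = 1) → (∃ p ∈ dpol P, p 1 = 1) → (∃ p ∈ dpol P, p 0 + p 1 = 1) →
  3 / 2 ≤ F P

/-- PLN. Choice of the coordinates.
PROOF (uses BIP, BODY). Let `L = dpol P`, a symmetric convex body (BODY), `N(z) = hs L z` its support
function: continuous (`hs_continuous`), positively homogeneous, subadditive, even (as `L = -L`), and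
`N(z) > 0` for `z ≠ 0` (as 0 is interior to `L`, or `le_wd`). Put `c(θ) = (cos θ, sin θ)/N(cos θ, sin θ)`,
continuous, `N(c(θ)) = 1`, `c(θ + π) = -c(θ)`. The function `h(θ) = N(c(0) + c(θ))` is continuous,
`h(0) = 2`, `h(π) = 0`, so `h(θ) = 1` for some `θ ∈ (0,π)`. Take `z1 = c(0)`, `z2 = c(θ)`: the
determinant is `sin θ/(N N) ≠ 0`. `N(z) = 1` gives: `⟨p,z⟩ ≤ 1` for all `p ∈ L`, so `z ∈ P - P` by BIP,
i.e. `z = y - x`, `x, y ∈ P`, and (compactness of `L`) a point `p ∈ L` with `⟨p,z⟩ = 1`. Apply this to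
`z1, z2, z1 + z2`. -/
def PLNStmt : Prop := ∀ P : Set (Fin 2 → ℝ), IsBody P → ∃ z1 z2 : Fin 2 → ℝ,
  z1 0 * z2 1 - z1 1 * z2 0 ≠ 0 ∧
  (∃ x ∈ P, x + z1 ∈ P) ∧ (∃ x ∈ P, x + z2 ∈ P) ∧ (∃ x ∈ P, x + (z1 + z2) ∈ P) ∧
  (∃ p ∈ dpol P, ∑ i, p i * z1 i = 1) ∧ (∃ p ∈ dpol P, ∑ i, p i * z2 i = 1) ∧
  (∃ p ∈ dpol P, ∑ i, p i * (z1 i + z2 i) = 1)

/-- PL. The planar inequality (Eggleston).
PROOF (uses PLS, PLN). Take `z1, z2` from PLN, `A` the linear equivalence with `A z1 = (1,0)`,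
`A z2 = (0,1)` (inverse of the matrix with columns `z1, z2`). `P' = A '' P` is a body
(`IsBody.affine` or directly), `F P' = F P` (`F_linear`), and the six conditions of PLS hold for `P'`:
`x + z ∈ P` gives `A x + A z ∈ P'`; for `p ∈ dpol P` the vector `p' = (⟨p,z1⟩, ⟨p,z2⟩)` is in `dpol P'`
(`⟨p', A x⟩ = ⟨p, x⟩`). -/
def PLStmt : Prop := ∀ P : Set (Fin 2 → ℝ), IsBody P → 3 / 2 ≤ F P

/-- G1. The key inequality on the polar side.
PROOF (uses CONE, HALF). Let `V = vol M`, `α = area (sec 0 M)`, `β = area (sec 1 M)`; by HALF the half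
sections `H₁ = {y ∈ sec 1 M : y 0 > 0}` (points `(y0, 0, y1)`) and `H₀ = {y ∈ sec 0 M : y 0 > 0}`
(points `(0, y0, y1)`) have areas `β/2`, `α/2`. First let `c 0 ≥ 0`, `c 1 ≥ 0`. The cone `C₁` over
`H₁` with apex `c` (as in CONE with `i = 1`) lies in `M` and in the quadrant `{x 0 > 0, x 1 > 0}` if
`c 1 > 0`, and has volume `≥ (c 1) β/6`; the cone `C₀` over `H₀` (`i = 0`) lies in the quadrant if
`c 0 > 0`, volume `≥ (c 0) α/6`. If both `c 0, c 1 > 0` the cones are disjoint: on `C₁` we have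
`c 1 * x 0 > c 0 * x 1`, on `C₀` the opposite strict inequality (so they also are separated by a
measurable set, no measurability of the cones is needed). Hence
`(c 0 α + c 1 β)/6 ≤ vol (M ∩ quadrant) = V/4`. If `c 0 ≥ 0 ≥ c 1`: apply the first case to the
reflected body `{x : (x 0, -x 1, x 2) ∈ M}` (same volume, `α`, `β` do not change, the quadrant
`{x 0 > 0, x 1 < 0}` of `M` has volume `V/2 - V/4 = V/4` by HALF and as the plane `x 1 = 0` is null).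
The other two cases follow by replacing `c` by `-c`. -/
def G1Stmt : Prop := ∀ M : Set (Fin 3 → ℝ), IsBody M → (∀ x ∈ M, -x ∈ M) →
  (volume (M ∩ {x | 0 < x 0 ∧ 0 < x 1})).toReal = (volume M).toReal / 4 →
  ∀ c ∈ M, |c 0| * (volume (sec 0 M)).toReal + |c 1| * (volume (sec 1 M)).toReal ≤
    3 / 2 * (volume M).toReal

/-- MIX. First variation.
PROOF (uses SEG). For `e > 0` let `K₁ = K + [0, e a] e₀`, `K₂ = K₁ + [0, e b] e₁`. By SEG twice and
`pr 1 K ⊆ pr 1 K₁`: `vol K₂ ≥ vol K + e a area(pr 0 K) + e b area(pr 1 K)`. The parallelogram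
`{c + s e₀ + t e₁ : 0 ≤ s ≤ a, 0 ≤ t ≤ b}` lies in `K` (convex hull of its vertices), so
`K₂ ⊆ {x + e (z - c) : x, z ∈ K} = (1+e) K - e c` (`x + e z ∈ (1+e) K` by convexity), so
`vol K₂ ≤ (1+e)³ vol K`. Hence `a area(pr 0 K) + b area(pr 1 K) ≤ ((1+e)³ - 1)/e vol K
= (3 + 3 e + e²) vol K` for all `e > 0`; let `e → 0`. -/
def MIXStmt : Prop := ∀ K : Set (Fin 3 → ℝ), IsBody K → ∀ (a b : ℝ) (c : Fin 3 → ℝ), 0 ≤ a →
  0 ≤ b → c ∈ K → c + Pi.single 0 a ∈ K → c + Pi.single 1 b ∈ K →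
  c + Pi.single 0 a + Pi.single 1 b ∈ K →
  a * (volume (pr 0 K)).toReal + b * (volume (pr 1 K)).toReal ≤ 3 * (volume K).toReal

/-- DIA. The diagonals.
PROOF (uses BIP, BODY, G1). Let `L = dpol K`, a symmetric body. For `p ∈ L`, G1 for `M = L`:
`|p 0| α + |p 1| β ≤ (3/2) V`, `α = area (sec 0 L)`, `β = area (sec 1 L)`, so the inner product of `p`
with `(2/(3V)) (α, ± β, 0)` is at most 1. BIP. -/
def DIAStmt : Prop := ∀ K : Set (Fin 3 → ℝ), IsBody K →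
  (volume (dpol K ∩ {x | 0 < x 0 ∧ 0 < x 1})).toReal = (volume (dpol K)).toReal / 4 →
  ∀ s : ℝ, |s| = 1 → ∃ x ∈ K, ∃ y ∈ K,
    ![2 * (volume (sec 0 (dpol K))).toReal / (3 * (volume (dpol K)).toReal),
      s * (2 * (volume (sec 1 (dpol K))).toReal / (3 * (volume (dpol K)).toReal)), 0] = x - y

/-- GEO. The conclusion, given the parallelogram.
PROOF (uses MIX, PL). `sec i (dpol K) = dpol (pr i K)` (in `∑ p_k (x_k - y_k)` the term `k = i`
vanishes, `Fin.sum_univ_succAbove`), and `pr i K` is a planar body. With `a, b` as below and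
`c' = c - (δ/2)(a,b,0)` the four points are `c'`, `c' + δ a e₀`, `c' + δ b e₁`,
`c' + δ a e₀ + δ b e₁`, so MIX gives `δ (a area(pr 0 K) + b area(pr 1 K)) ≤ 3 vol K`. By PL,
`area(pr 0 K) α ≥ 3/2` and `area(pr 1 K) β ≥ 3/2`, so
`3 vol K ≥ δ (2/(3V)) (3/2 + 3/2) = 2 δ/V`. -/
def GEOStmt : Prop := ∀ K : Set (Fin 3 → ℝ), IsBody K → ∀ (δ a b : ℝ) (c : Fin 3 → ℝ), 0 ≤ δ →
  a = 2 * (volume (sec 0 (dpol K))).toReal / (3 * (volume (dpol K)).toReal) →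
  b = 2 * (volume (sec 1 (dpol K))).toReal / (3 * (volume (dpol K)).toReal) →
  c + (δ / 2) • ![a, b, 0] ∈ K → c - (δ / 2) • ![a, b, 0] ∈ K →
  c + (δ / 2) • ![a, -b, 0] ∈ K → c - (δ / 2) • ![a, -b, 0] ∈ K →
  δ * (2 / 3) ≤ F K

/-- TR. Change of the basis.
PROOF. Let `B` be the matrix with columns `n j`, `B y = ∑ j, y j • n j`; its inverse transpose is the
matrix with columns `m i`. `K' = B⁻¹ K` is a body, `F K' = F K` (`F_linear`). For `p`, `x = B y`: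
`⟨∑ i, p i • m i, B y⟩ = ∑ i, p i * y i`, so `p ∈ dpol K'` iff `∑ p i • m i ∈ dpol K`. -/
def TRStmt : Prop := ∀ (K : Set (Fin 3 → ℝ)) (n m : Fin 3 → Fin 3 → ℝ), IsBody K →
  (∀ i j, ip (m i) (n j) = if i = j then 1 else 0) →
  IsBody {y : Fin 3 → ℝ | ∑ j, y j • n j ∈ K} ∧
  dpol {y : Fin 3 → ℝ | ∑ j, y j • n j ∈ K} = {p : Fin 3 → ℝ | ∑ i, p i • m i ∈ dpol K} ∧
  F {y : Fin 3 → ℝ | ∑ j, y j • n j ∈ K} = F K

/-- ARC. Continuity of `Ar`.
PROOF (uses DCV). `dpol K = {wd K ≤ 1}`, `wd K` continuous, positively homogeneous, with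
`wd K p ≥ ε ∑ |p i|` (`le_wd`). Fix independent `u₀, v₀`. The function
`(y,u,v) ↦ wd K (y 0 • u + y 1 • v)` is continuous and, by compactness and homogeneity in `y`, there are
a neighbourhood `U` of `(u₀,v₀)` and `ε' > 0` with `wd K (y 0 • u + y 1 • v) ≥ ε' ‖y‖` for
`(u,v) ∈ U`. So all the sets `{y | wd K (…) ≤ 1}` lie in the ball `A` of radius `1/ε'`. For independent
`u, v` the set `{y | wd K (y 0 • u + y 1 • v) = 1}` is null: it is disjoint from its multiples and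
`{wd < 1} ⊆ {wd ≤ 1} = ⋂_{t>1} t {wd < 1}`, the areas of `{≤ 1}` and `{< 1}` agree by homogeneity
(compare `IsBody.vol_lt` and its proof in `Pool/Agent/Helper47/AQ/Phi.lean`; or: the boundary of a
convex set is null). So `Ar (dpol K) u v = area {y ∈ A | 0 < 1 - wd K (…)}` and DCV applies. -/
def ARCStmt : Prop := ∀ K : Set (Fin 3 → ℝ), IsBody K →
  ContinuousOn (fun q : (Fin 3 → ℝ) × (Fin 3 → ℝ) => Ar (dpol K) q.1 q.2)
    {q | LinearIndependent ℝ ![q.1, q.2]}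

/-- QVC. Continuity of the quarter function in the vectors.
PROOF (uses DCV, BODY). `A = dpol K`, `Φ (u,v) x = ip x u - t |ip x v|`. The null set condition:
`{x | ip x u = t |ip x v|} ⊆ {ip x (u - t v) = 0} ∪ {ip x (u + t v) = 0}`, hyperplanes as
`u ∓ t v ≠ 0` by independence. -/
def QVCStmt : Prop := ∀ K : Set (Fin 3 → ℝ), IsBody K → ∀ t : ℝ,
  ContinuousOn (fun q : (Fin 3 → ℝ) × (Fin 3 → ℝ) => QV (dpol K) q.1 q.2 t)
    {q | LinearIndependent ℝ ![q.1, q.2]}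

/-- QVM. The quarter function as a function of `t`.
PROOF (uses DCV, HALF or its argument, BODY). Strictly antitone: for `s < t` the difference set
contains `L ∩ {s |⟨x,v⟩| < ⟨x,u⟩ < t |⟨x,v⟩|}`; by independence there is `x` with `⟨x,v⟩ = 1` and
`⟨x,u⟩ = (s+t)/2`, small multiples of `x` are interior to `L` and satisfy the strict (homogeneous)
inequalities, so the difference contains a nonempty open set, of positive measure. Continuous on
`[0,∞)`: as in QVC by DCV. `QV 0 = V/2` (central symmetry, hyperplane null), `QV t → 0` for `t → ∞`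
(`{t |⟨x,v⟩| < ⟨x,u⟩} = {0 < ⟨x,u⟩/t - |⟨x,v⟩|}`, DCV with `Φ₀ = -|⟨x,v⟩|`). So there is a unique `t > 0`
with `QV t = V/4`. -/
def QVMStmt : Prop := ∀ K : Set (Fin 3 → ℝ), IsBody K → ∀ u v : Fin 3 → ℝ,
  LinearIndependent ℝ ![u, v] → StrictAntiOn (QV (dpol K) u v) (Ioi 0) ∧
  ∃ t : ℝ, 0 < t ∧ QV (dpol K) u v t = (volume (dpol K)).toReal / 4

/-- QVS. Rotation by 90 degrees of the frame.
PROOF (uses BODY). `L = -L`. The space is the disjoint union, up to the two planes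
`⟨x,u⟩ = ± t ⟨x,v⟩` (null by independence), of `A = {t |⟨x,v⟩| < ⟨x,u⟩}`, `-A`,
`B = {|⟨x,u⟩| < t ⟨x,v⟩}` and `-B`. So `V = 2 vol(L ∩ A) + 2 vol(L ∩ B)`, and
`B = {t⁻¹ |⟨x,-u⟩| < ⟨x,v⟩}`. -/
def QVSStmt : Prop := ∀ K : Set (Fin 3 → ℝ), IsBody K → ∀ (u v : Fin 3 → ℝ) (t : ℝ),
  LinearIndependent ℝ ![u, v] → 0 < t → QV (dpol K) u v t = (volume (dpol K)).toReal / 4 →
  QV (dpol K) v (-u) t⁻¹ = (volume (dpol K)).toReal / 4

/-- TAU. The equipartition function.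
PROOF (uses FRM, QVC, QVM, QVS, IMP). For `g ∈ S` the vectors `q1 g, q2 g` are orthonormal, hence
independent; choose `τ g` by QVM, unique by strict monotonicity; continuous by IMP and QVC (composed
with the continuous map `g ↦ (q1 g, q2 g)`). `τ (g ω) = (τ g)⁻¹` by QVS and uniqueness as
`q1 (g ω) = q2 g`, `q2 (g ω) = -q1 g`; `τ (g i) = τ g` as `q1 (g i) = q1 g`, `q2 (g i) = - q2 g` and
`QV` depends on `|⟨x,v⟩|` only. -/
def TAUStmt : Prop := ∀ K : Set (Fin 3 → ℝ), IsBody K → ∃ τ : ℍ[ℝ] → ℝ,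
  ContinuousOn τ (SS ℍ[ℝ]) ∧ ∀ g ∈ SS ℍ[ℝ], 0 < τ g ∧
    QV (dpol K) (q1 g) (q2 g) (τ g) = (volume (dpol K)).toReal / 4 ∧
    τ (g * om) = (τ g)⁻¹ ∧ τ (g * qi) = τ g

/-- EQV. Equivariance of the diagonals.
PROOF (uses FRM, ARS). `m1 t⁻¹ (g ω) = t • m2' …`: with `b1, b2, b3` the frame of `g`:
`n1 t⁻¹ (gω) = b2 - t⁻¹ b1 = -t⁻¹ n2 t g`, `n2 t⁻¹ (gω) = b2 + t⁻¹ b1 = t⁻¹ n1 t g`,
`m1 t⁻¹ (gω) = (b2 - t b1)/2 = -t m2 t g`, `m2 t⁻¹ (gω) = (b2 + t b1)/2 = t m1 t g`, so by ARS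
`Ar (m2 t⁻¹ (gω)) (q3 (gω)) = t⁻¹ Ar (m1 t g) (q3 g)` and
`Ar (m1 t⁻¹ (gω)) (q3 (gω)) = t⁻¹ Ar (m2 t g) (q3 g)`; hence
`zA K t⁻¹ (gω) = (t⁻¹ Ar (m1 t g)(q3 g)/(3 t⁻¹ V)) • (-t⁻¹ • n2 t g) = -zB K t g` and
`zB K t⁻¹ (gω) = zA K t g`. Also `n1 t (gi) = n2 t g`, `n2 t (gi) = n1 t g`, `m1 t (gi) = m2 t g`,
`m2 t (gi) = m1 t g`, `q3 (gi) = -q3 g`, so `zA K t (gi) = zB K t g`, `zB K t (gi) = zA K t g`. -/
def EQVStmt : Prop := ∀ (K : Set (Fin 3 → ℝ)) (t : ℝ), 0 < t → ∀ g ∈ SS ℍ[ℝ],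
  zp K t⁻¹ (g * om) = zm K t g ∧ zm K t⁻¹ (g * om) = -zp K t g ∧
  zp K t (g * qi) = zp K t g ∧ zm K t (g * qi) = -zm K t g

/-- CTZ. Continuity of the diagonals.
PROOF (uses FRM, ARC). All the functions `n1, n2, m1, m2, q3` are continuous on `S` along
`g ↦ (τ g, g)`; `m1 t g, q3 g` and `m2 t g, q3 g` are independent, as `q1 g, q2 g, q3 g` are
orthonormal. ARC. The denominators `3 τ V` are positive. -/
def CTZStmt : Prop := ∀ (K : Set (Fin 3 → ℝ)) (τ : ℍ[ℝ] → ℝ), IsBody K →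
  ContinuousOn τ (SS ℍ[ℝ]) → (∀ g ∈ SS ℍ[ℝ], 0 < τ g) →
  ContinuousOn (fun g => zp K (τ g) g) (SS ℍ[ℝ]) ∧ ContinuousOn (fun g => zm K (τ g) g) (SS ℍ[ℝ])

/-- GEZ. The geometric content for the diagonals.
PROOF (uses FRM, TR, DIA, GEO). Let `n = ![n1 t g, n2 t g, q3 g]`, `m = ![m1 t g, m2 t g, q3 g]`: dual
bases, as `q1 g, q2 g, q3 g` are orthonormal. Let `K' = {y | ∑ y j • n j ∈ K}` as in TR,
`dpol K' = {p | ∑ p i • m i ∈ dpol K}`. With `p ↦ x = ∑ p i • m i` (determinant of absolute value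
`1/(2t)`; `⟨x, n j⟩ = p j`): `vol (dpol K') = 2 t V`, where `V = vol (dpol K)`, and the part
`p 0 > 0, p 1 > 0` corresponds to `⟨x,n1⟩ > 0, ⟨x,n2⟩ > 0`, i.e. `t |⟨x,q2⟩| < ⟨x,q1⟩`, so its volume is
`2 t QV = 2 t V/4 = vol (dpol K')/4`. `sec 0 (dpol K') = {y | y 0 • m2 + y 1 • q3 ∈ dpol K}` has area
`Ar (dpol K) (m2 t g) (q3 g)`, `sec 1 (dpol K')` has area `Ar (dpol K) (m1 t g) (q3 g)`. So the numbers
`a, b` of GEO for `K'` are the coefficients of `zA`, `zB`, and the map `B : y ↦ ∑ y j • n j` maps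
`(a,b,0)` to `zp` and `(a,-b,0)` to `zm`. DIA for `K'` (with `s = 1`, `s = -1`) gives the first two
claims, GEO for `K'` (with the centre `B⁻¹ c`) the third. -/
def GEZStmt : Prop := ∀ K : Set (Fin 3 → ℝ), IsBody K → ∀ (t : ℝ), 0 < t → ∀ g ∈ SS ℍ[ℝ],
  QV (dpol K) (q1 g) (q2 g) t = (volume (dpol K)).toReal / 4 →
  (∃ x ∈ K, ∃ y ∈ K, zp K t g = x - y) ∧ (∃ x ∈ K, ∃ y ∈ K, zm K t g = x - y) ∧
  ∀ (δ : ℝ) (c : Fin 3 → ℝ), 0 ≤ δ →
    c + (1 / 2 : ℝ) • (δ • zp K t g) ∈ K → c - (1 / 2 : ℝ) • (δ • zp K t g) ∈ K →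
    c + (1 / 2 : ℝ) • (δ • zm K t g) ∈ K → c - (1 / 2 : ℝ) • (δ • zm K t g) ∈ K →
    δ * (2 / 3) ≤ F K

/-- MID. A continuous even choice of the midpoint of a chord.
PROOF. Let `w x = infDist x Kᶜ` (continuous, bounded on bounded sets, `w = 0` off `K`, and
`w x > 0` exactly for `x` in the interior of `K`); `h(z,x) = w(x + z/2) w(x - z/2)` is continuous, even
in `z`, vanishes unless `x ± z/2 ∈ K` (so `x ∈ K - z/2`, and `x` is the midpoint of the two points, so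
`x ∈ K`: the support in `x` is in the compact set `K`). For `z = δ(p - q)`, `p, q ∈ K`, `δ < 1`, take
`o` interior to `K` and `x = δ(p+q)/2 + (1-δ) o`: `x + z/2 = δ p + (1-δ) o` and
`x - z/2 = δ q + (1-δ) o` are interior to `K`, so `h(z,x) > 0` and `∫ h(z,·) > 0`. Put
`c(z) = (∫_K h(z,x) dx)⁻¹ ∫_K h(z,x) x dx`: continuous (parametric integrals over a compact set,
`continuous_parametric_integral_of_continuous` or dominated convergence), even, and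
`c(z) ± z/2` is an average of the points `x ± z/2 ∈ K` with the weight `h`, hence in `K` (closed and
convex; `Convex.average_mem`, or: every half space containing `K` contains `c(z) ± z/2`). -/
def MIDStmt : Prop := ∀ K : Set (Fin 3 → ℝ), IsBody K → ∀ δ : ℝ, 0 ≤ δ → δ < 1 →
  ∃ c : (Fin 3 → ℝ) → (Fin 3 → ℝ),
    ContinuousOn c {z | ∃ x ∈ K, ∃ y ∈ K, z = δ • (x - y)} ∧
    ∀ z ∈ {z : Fin 3 → ℝ | ∃ x ∈ K, ∃ y ∈ K, z = δ • (x - y)},
      c (-z) = c z ∧ c z + (1 / 2 : ℝ) • z ∈ K ∧ c z - (1 / 2 : ℝ) • z ∈ K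

/-- MAIN. The theorem.
PROOF (uses TT, TAU, EQV, CTZ, GEZ, MID, FRM). Suppose `F K < 2/3`; choose `0 ≤ δ < 1` with
`F K < δ (2/3)`. Take `τ` from TAU, `c` from MID for `δ`. Put
`D g = c (δ • zp K (τ g) g) - c (δ • zm K (τ g) g)`. By GEZ `zp, zm ∈ K - K` for `g ∈ S`, so `D` is
continuous on `S` (CTZ). By EQV and TAU, `zp K (τ (gω)) (gω) = zm K (τ g) g`,
`zm K (τ (gω)) (gω) = -zp K (τ g) g`, so `D (g ω) = -D g` as `c` is even; `D (g i) = D g` in the same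
way. By TT there is `g ∈ S` with `D g = 0`; then the four points `c₀ ± δ zp/2`, `c₀ ± δ zm/2` are in
`K` for `c₀ = c (δ • zp) = c (δ • zm)`, and GEZ gives `δ (2/3) ≤ F K`, contradiction. -/
def MAINStmt : Prop := ∀ K : Set (Fin 3 → ℝ), IsBody K → 2 / 3 ≤ F K

end Pool.Agent.Helper72.MK
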