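import Pool.Agent.Helper88.MK.Log1
import Pool.Agent.Helper34.MK.Hem
import Pool.Agent.Helper79.MK.Eig
import Pool.Agent.Helper40.MK.Sec1
import Pool.Agent.Helper73.MK.Log2
import Pool.Agent.Helper81.MK.Sec2
import Pool.Agent.Helper69.MK.Avg
import Pool.Agent.Helper16.MK.Tt
import Pool.Agent.Helper31.MK.Bip
import Pool.Agent.Helper86.MK.Body
import Pool.Agent.Helper85.MK.Tri
import Pool.Agent.Helper51.MK.Quad
import Pool.Agent.Helper22.MK.Chord
import Pool.Agent.Helper7.MK.Hex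
import Pool.Agent.Helper50.MK.Pls
import Pool.Agent.Helper5.MK.Pln
import Pool.Agent.Helper89.MK.Pl
import Pool.Agent.Helper63.MK.Cone
import Pool.Agent.Helper90.MK.Half
import Pool.Agent.Helper60.MK.G1
import Pool.Agent.Helper45.MK.Seg
import Pool.Agent.Helper10.MK.Mix
import Pool.Agent.Helper61.MK.Dia
import Pool.Agent.Helper61.MK.Geo
import Pool.Agent.Helper8.MK.Tr
import Pool.Agent.Helper9.MK.Frm
import Pool.Agent.Helper28.MK.Ars
import Pool.Agent.Helper12.MK.Dcv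
import Pool.Agent.Helper63.MK.Arc
import Pool.Agent.Helper79.MK.Qvc
import Pool.Agent.Helper41.MK.Qvm
import Pool.Agent.Helper13.MK.Qvs
import Pool.Agent.Helper56.MK.Imp
import Pool.Agent.Helper26.MK.Tau
import Pool.Agent.Helper28.MK.Eqv
import Pool.Agent.Helper12.MK.Ctz
import Pool.Agent.Helper97.MK.Gez
import Pool.Agent.Helper82.MK.Mid
import Pool.Agent.Helper95.MK.Main

/-!
# Makai's conjecture in dimension 3: all the packets without hypotheses
-/

open Pool.Agent.Helper72.MK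

namespace Pool.Agent.Helper72.MK

theorem fLOG1 : LOG1Stmt := Pool.Agent.Helper88.MK.log1
theorem fHEM : HEMStmt := Pool.Agent.Helper34.MK.hem
theorem fEIG : EIGStmt := Pool.Agent.Helper79.MK.eig
theorem fSEC1 : SEC1Stmt := Pool.Agent.Helper40.MK.sec1 fEIG
theorem fLOG2 : LOG2Stmt := Pool.Agent.Helper73.MK.log2 fLOG1 fHEM
theorem fSEC2 : SEC2Stmt := Pool.Agent.Helper81.MK.sec2 fSEC1 fHEM fLOG2 fEIG
theorem fAVG : AVGStmt := Pool.Agent.Helper69.MK.avg fLOG2
theorem fTT : TTStmt := Pool.Agent.Helper16.MK.tt fSEC2 fEIG fAVG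
theorem fBIP : BIPStmt := Pool.Agent.Helper31.MK.bip
theorem fBODY : BODYStmt := Pool.Agent.Helper86.MK.body
theorem fTRI : TRIStmt := Pool.Agent.Helper85.MK.tri
theorem fQUAD : QUADStmt := Pool.Agent.Helper51.MK.quad fTRI
theorem fCHORD : CHORDStmt := Pool.Agent.Helper22.MK.chord fTRI
theorem fHEX : HEXStmt := Pool.Agent.Helper7.MK.hex fQUAD
theorem fPLS : PLSStmt := Pool.Agent.Helper50.MK.pls fHEX fCHORD fBODY
theorem fPLN : PLNStmt := Pool.Agent.Helper5.MK.pln fBIP fBODY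
theorem fPL : PLStmt := Pool.Agent.Helper89.MK.pl fPLS fPLN
theorem fCONE : CONEStmt := Pool.Agent.Helper63.MK.cone
theorem fHALF : HALFStmt := Pool.Agent.Helper90.MK.half
theorem fG1 : G1Stmt := Pool.Agent.Helper60.MK.g1 fCONE fHALF
theorem fSEG : SEGStmt := Pool.Agent.Helper45.MK.seg
theorem fMIX : MIXStmt := Pool.Agent.Helper10.MK.mix fSEG
theorem fDIA : DIAStmt := Pool.Agent.Helper61.MK.dia fBIP fBODY fG1
theorem fGEO : GEOStmt := Pool.Agent.Helper61.MK.geo fMIX fPL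
theorem fTR : TRStmt := Pool.Agent.Helper8.MK.tr
theorem fFRM : FRMStmt := Pool.Agent.Helper9.MK.frm
theorem fARS : ARSStmt := Pool.Agent.Helper28.MK.ars
theorem fDCV : DCVStmt := Pool.Agent.Helper12.MK.dcv
theorem fARC : ARCStmt := Pool.Agent.Helper63.MK.arc fDCV
theorem fQVC : QVCStmt := Pool.Agent.Helper79.MK.qvc fDCV fBODY
theorem fQVM : QVMStmt := Pool.Agent.Helper41.MK.qvm fDCV
theorem fQVS : QVSStmt := Pool.Agent.Helper13.MK.qvs fBODY
theorem fIMP : IMPStmt := Pool.Agent.Helper56.MK.imp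
theorem fTAU : TAUStmt := Pool.Agent.Helper26.MK.tau fFRM fQVC fQVM fQVS fIMP
theorem fEQV : EQVStmt := Pool.Agent.Helper28.MK.eqv fFRM fARS
theorem fCTZ : CTZStmt := Pool.Agent.Helper12.MK.ctz fFRM fARC
theorem fGEZ : GEZStmt := Pool.Agent.Helper97.MK.gez fFRM fTR fDIA fGEO
theorem fMID : MIDStmt := Pool.Agent.Helper82.MK.mid
theorem fMAIN : MAINStmt := Pool.Agent.Helper95.MK.main fTT fTAU fEQV fCTZ fGEZ fMID

end Pool.Agent.Helper72.MK
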