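import Mathlib

/-!
# Makai's conjecture in dimension 3 (MP_6fb600_gt, i = 1, n = 3): definitions without convex bodies
-/

open MeasureTheory Set Filter Topology
open scoped ENNReal Quaternion

noncomputable section

namespace Pool.Agent.Helper72.MK

/-! ## Topology -/

/-- The closed hemisphere of the unit sphere with centre `N`. -/
def Hem {E : Type} [NormedAddCommGroup E] [InnerProductSpace ℝ E] (N : E) : Set E :=
  {x | ‖x‖ = 1 ∧ 0 ≤ inner ℝ N x}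

/-- The unit sphere. -/
def SS (E : Type) [NormedAddCommGroup E] : Set E := {x | ‖x‖ = 1}

/-- The Euclidean norm of a vector of `ℝ³`. -/
def nm (v : Fin 3 → ℝ) : ℝ := Real.sqrt (v 0 ^ 2 + v 1 ^ 2 + v 2 ^ 2)

/-- The Pauli matrix of `v` applied to a vector of `ℂ²`. -/
def PM (v : Fin 3 → ℝ) (s : ℂ × ℂ) : ℂ × ℂ :=
  ((v 2 : ℂ) * s.1 + ((v 0 : ℂ) - (v 1 : ℂ) * Complex.I) * s.2,
    ((v 0 : ℂ) + (v 1 : ℂ) * Complex.I) * s.1 - (v 2 : ℂ) * s.2)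

/-- `s` is an eigenvector of the Pauli matrix of `v` for the eigenvalue `|v|`. -/
def Eig (v : Fin 3 → ℝ) (s : ℂ × ℂ) : Prop := s ≠ 0 ∧ PM v s = (nm v : ℂ) • s

/-- The determinant of two vectors of `ℂ²`. -/
def dt (s t : ℂ × ℂ) : ℂ := s.1 * t.2 - s.2 * t.1

/-- The factor `f` with `t = f s` (if the vectors `s`, `t` are proportional and `s ≠ 0`). -/
def fr (s t : ℂ × ℂ) : ℂ :=
  (star s.1 * t.1 + star s.2 * t.2) / ((‖s.1‖ ^ 2 + ‖s.2‖ ^ 2 : ℝ) : ℂ)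

/-- The quaternion `(1 + k)/√2`. -/
def om : ℍ[ℝ] := ⟨(√2)⁻¹, 0, 0, (√2)⁻¹⟩

/-- The quaternion `i`. -/
def qi : ℍ[ℝ] := ⟨0, 1, 0, 0⟩

/-- The quaternion `j`. -/
def qj : ℍ[ℝ] := ⟨0, 0, 1, 0⟩

/-- The quaternion `k`. -/
def qk : ℍ[ℝ] := ⟨0, 0, 0, 1⟩

/-- `g i g*` as a vector (first column of the rotation matrix of `g`). -/
def q1 (g : ℍ[ℝ]) : Fin 3 → ℝ :=
  ![g.re ^ 2 + g.imI ^ 2 - g.imJ ^ 2 - g.imK ^ 2, 2 * (g.imI * g.imJ + g.re * g.imK),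
    2 * (g.imI * g.imK - g.re * g.imJ)]

/-- `g j g*` as a vector (second column of the rotation matrix of `g`). -/
def q2 (g : ℍ[ℝ]) : Fin 3 → ℝ :=
  ![2 * (g.imI * g.imJ - g.re * g.imK), g.re ^ 2 - g.imI ^ 2 + g.imJ ^ 2 - g.imK ^ 2,
    2 * (g.imJ * g.imK + g.re * g.imI)]

/-- `g k g*` as a vector (third column of the rotation matrix of `g`). -/
def q3 (g : ℍ[ℝ]) : Fin 3 → ℝ :=
  ![2 * (g.imI * g.imK + g.re * g.imJ), 2 * (g.imJ * g.imK - g.re * g.imI),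
    g.re ^ 2 - g.imI ^ 2 - g.imJ ^ 2 + g.imK ^ 2]

/-- The inner product of `ℝ³`. -/
def ip (x y : Fin 3 → ℝ) : ℝ := ∑ i, x i * y i

/-! ## Geometry -/

/-- The projection of `K ⊆ ℝ³` along the `i`-th coordinate axis. -/
def pr (i : Fin 3) (K : Set (Fin 3 → ℝ)) : Set (Fin 2 → ℝ) :=
  (fun x : Fin 3 → ℝ => fun j => x (i.succAbove j)) '' K

/-- The section of `M ⊆ ℝ³` with the coordinate plane `x_i = 0`. -/
def sec (i : Fin 3) (M : Set (Fin 3 → ℝ)) : Set (Fin 2 → ℝ) :=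
  {y | (i.insertNth (0 : ℝ) y : Fin 3 → ℝ) ∈ M}

/-- The volume of `L ∩ {t |⟨x,v⟩| < ⟨x,u⟩}`. -/
def QV (L : Set (Fin 3 → ℝ)) (u v : Fin 3 → ℝ) (t : ℝ) : ℝ :=
  (volume (L ∩ {x | t * |ip x v| < ip x u})).toReal

/-- The area of the section of `L` with the plane spanned by `u`, `v`, in the coordinates given by
`u`, `v`. -/
def Ar (L : Set (Fin 3 → ℝ)) (u v : Fin 3 → ℝ) : ℝ :=
  (volume {y : Fin 2 → ℝ | y 0 • u + y 1 • v ∈ L}).toReal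

/-- `n₁ = b₁ + t b₂`. -/
def n1 (t : ℝ) (g : ℍ[ℝ]) : Fin 3 → ℝ := q1 g + t • q2 g

/-- `n₂ = b₁ - t b₂`. -/
def n2 (t : ℝ) (g : ℍ[ℝ]) : Fin 3 → ℝ := q1 g - t • q2 g

/-- The first vector of the basis dual to `n₁, n₂, b₃`. -/
def m1 (t : ℝ) (g : ℍ[ℝ]) : Fin 3 → ℝ := (1 / 2 : ℝ) • (q1 g + t⁻¹ • q2 g)

/-- The second vector of the basis dual to `n₁, n₂, b₃`. -/
def m2 (t : ℝ) (g : ℍ[ℝ]) : Fin 3 → ℝ := (1 / 2 : ℝ) • (q1 g - t⁻¹ • q2 g)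

end Pool.Agent.Helper72.MK
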