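import Pool.Agent.Helper47.AQ.Body
import Pool.Agent.Helper72.MK.DefsT

/-!
# Makai's conjecture in dimension 3 (MP_6fb600_gt, i = 1, n = 3): definitions

`IsBody`, `dpol K = (K - K)°`, `F K = V(K) V((K - K)°)` come from `Pool/Agent/Helper47/AQ`.
-/

open MeasureTheory Set Filter Topology
open scoped ENNReal Quaternion
open Pool.Agent.Helper47.AQ

noncomputable section

namespace Pool.Agent.Helper72.MK

/-- The first side of the parallelogram. -/
def zA (K : Set (Fin 3 → ℝ)) (t : ℝ) (g : ℍ[ℝ]) : Fin 3 → ℝ :=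
  (Ar (dpol K) (m2 t g) (q3 g) / (3 * t * (volume (dpol K)).toReal)) • n1 t g

/-- The second side of the parallelogram. -/
def zB (K : Set (Fin 3 → ℝ)) (t : ℝ) (g : ℍ[ℝ]) : Fin 3 → ℝ :=
  (Ar (dpol K) (m1 t g) (q3 g) / (3 * t * (volume (dpol K)).toReal)) • n2 t g

/-- The first diagonal. -/
def zp (K : Set (Fin 3 → ℝ)) (t : ℝ) (g : ℍ[ℝ]) : Fin 3 → ℝ := zA K t g + zB K t g

/-- The second diagonal. -/
def zm (K : Set (Fin 3 → ℝ)) (t : ℝ) (g : ℍ[ℝ]) : Fin 3 → ℝ := zA K t g - zB K t g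

end Pool.Agent.Helper72.MK
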