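import Pool.Agent.Helper72.MK.Goals
import Pool.Agent.Helper47.AQ.Phi

/-!
# From the volume product to the affine quermassintegral, dimension 3
-/

open MeasureTheory Set Filter Topology
open Pool.Agent.Helper47.AQ

noncomputable section

namespace Pool.Agent.Helper72.MK

theorem kap3 : kap 3 = 4 / 3 * Real.pi := by
  unfold kap
  rw [EuclideanSpace.volume_ball_fin_three]
  rw [ENNReal.ofReal_one, one_pow, one_mul, ENNReal.toReal_ofReal (by positivity)]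
  ring

/-- The constant of the simplex for `n = 3`. -/
theorem aC3 : aC 3 = (3 / Real.pi ^ 2) ^ ((1 : ℝ) / 3) := by
  have hπ := Real.pi_pos
  have h1 : aC 3 = 2 * kap 3 ^ (-(2 / (3 : ℝ))) * ((2 : ℝ) / 3) ^ ((1 : ℝ) / 3) := by
    unfold aC
    norm_num [Nat.factorial]
  have h2 : (0 : ℝ) ≤ 2 * kap 3 ^ (-(2 / (3 : ℝ))) * ((2 : ℝ) / 3) ^ ((1 : ℝ) / 3) := by
    have := (kap_pos 3).le
    positivity
  have h3 : (2 * kap 3 ^ (-(2 / (3 : ℝ))) * ((2 : ℝ) / 3) ^ ((1 : ℝ) / 3)) ^ 3 =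
      3 / Real.pi ^ 2 := by
    have hk := (kap_pos 3)
    have e1 : (kap 3 ^ (-(2 / (3 : ℝ)))) ^ 3 = (kap 3 ^ 2)⁻¹ := by
      rw [← Real.rpow_natCast, ← Real.rpow_mul hk.le]
      have : -(2 / (3 : ℝ)) * ((3 : ℕ) : ℝ) = -(2 : ℝ) := by norm_num
      rw [this, Real.rpow_neg hk.le]
      norm_num
    have e2 : (((2 : ℝ) / 3) ^ ((1 : ℝ) / 3)) ^ 3 = 2 / 3 := by
      rw [← Real.rpow_natCast, ← Real.rpow_mul (by norm_num)]
      norm_num
    rw [mul_pow, mul_pow, e1, e2, kap3]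
    field_simp
    norm_num
  rw [h1, ← h3, ← Real.rpow_natCast, ← Real.rpow_mul h2]
  norm_num

/-- All the consequences of the theorem on the volume product. -/
theorem final (hM : MAINStmt) :
    (∀ K : Set (Fin 3 → ℝ), IsBody K →
      (3 / Real.pi ^ 2) ^ ((1 : ℝ) / 3) * Phi K ≤
        kap 3 ^ ((2 : ℝ) / 3) * (volume K).toReal ^ ((1 : ℝ) / 3) ∧
      2 / 3 ≤ (volume K).toReal * (volume (dpol K)).toReal) ∧
    (∀ K : Set (Fin 3 → ℝ), IsSimplex K →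
      (3 / Real.pi ^ 2) ^ ((1 : ℝ) / 3) * Phi K =
        kap 3 ^ ((2 : ℝ) / 3) * (volume K).toReal ^ ((1 : ℝ) / 3) ∧
      (volume K).toReal * (volume (dpol K)).toReal = 2 / 3) ∧
    IsGreatest {a : ℝ | ∀ K : Set (Fin 3 → ℝ), IsBody K →
      a * Phi K ≤ kap 3 ^ ((2 : ℝ) / 3) * (volume K).toReal ^ ((1 : ℝ) / 3)}
      ((3 / Real.pi ^ 2) ^ ((1 : ℝ) / 3)) := by
  have hc : ((3 : ℝ) + 1) / ((Nat.factorial 3 : ℕ) : ℝ) = 2 / 3 := by
    norm_num [Nat.factorial]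
  have h23 : (((3 : ℕ) : ℝ) - 1) / ((3 : ℕ) : ℝ) = 2 / 3 := by norm_num
  have key : ∀ K : Set (Fin 3 → ℝ), IsBody K →
      (3 / Real.pi ^ 2) ^ ((1 : ℝ) / 3) * Phi K ≤
        kap 3 ^ ((2 : ℝ) / 3) * (volume K).toReal ^ ((1 : ℝ) / 3) ∧
      2 / 3 ≤ (volume K).toReal * (volume (dpol K)).toReal := by
    intro K hK
    have h1 := hM K hK
    obtain ⟨h4, -⟩ := hK.Phi_iff
    simp only [Fintype.card_fin] at h4
    rw [h23] at h4
    refine ⟨?_, h1⟩
    rw [← aC3]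
    have h5 := h4.2 (by
      push_cast
      rw [hc]
      exact h1)
    push_cast at h5
    exact h5
  have keq : ∀ K : Set (Fin 3 → ℝ), IsSimplex K →
      (3 / Real.pi ^ 2) ^ ((1 : ℝ) / 3) * Phi K =
        kap 3 ^ ((2 : ℝ) / 3) * (volume K).toReal ^ ((1 : ℝ) / 3) ∧
      (volume K).toReal * (volume (dpol K)).toReal = 2 / 3 := by
    intro K hK
    have h7 := hK.F_eq
    obtain ⟨-, h5⟩ := hK.isBody.Phi_iff
    simp only [Fintype.card_fin] at h5 h7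
    rw [h23] at h5
    push_cast at h7
    rw [hc] at h7
    refine ⟨?_, h7⟩
    rw [← aC3]
    have h6 := h5.2 (by
      push_cast
      rw [hc]
      exact h7)
    push_cast at h6
    exact h6
  refine ⟨key, keq, fun K hK => (key K hK).1, fun a ha => ?_⟩
  have hs : IsSimplex {x : Fin 3 → ℝ | (∀ i, 0 ≤ x i) ∧ ∑ i, x i ≤ 1} := by
    have h2 := simplexW (fun _ : Fin 3 => (1 : ℝ)) (fun _ => one_pos)
    simp only [mul_one] at h2
    exact ⟨corner_simplex.body.int, h2⟩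
  have h1 := ha _ hs.isBody
  rw [← (keq _ hs).1] at h1
  exact le_of_mul_le_mul_right h1 hs.isBody.Phi_pos

end Pool.Agent.Helper72.MK
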